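import Pool.Agent.Lib.MP_c7af3c_ag.T2.Iface
import Pool.Agent.Lib.MP_c7af3c_ag.T2.H54.Basic

/-!
# MP_c7af3c_ag, project T2: module HULL (helper19)
-/

set_option autoImplicit false

namespace Pool.Agent.T2.H19

open MvPolynomial Pool.Agent.Gen Pool.Agent.Sharp Pool.Agent.Edge

/-- a chart of the hull of a point over a subfield -/
theorem exists_chart {Ω : Type} [Field Ω] (k : Subfield Ω) {N : ℕ} (x : Fin N → Ω) (j0 : Fin N)
    (hj0 : x j0 ≠ 0) : ∃ (m : ℕ) (t : Fin (m + 1) → Fin N) (P : Fin (m + 1) → Fin N → Ω),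
      t 0 = j0 ∧ (∀ i j, P i (t j) = if i = j then 1 else 0) ∧
      (∀ f, x f = ∑ i, P i f * x (t i)) ∧ (∀ i f, P i f ∈ k) ∧
      ∀ a : Fin (m + 1) → Ω, (∀ i, a i ∈ k) → ∑ i, a i * x (t i) = 0 → a = 0 := by
  classical
  have h1 : LinearIndepOn k x ({j0} : Set (Fin N)) := by
    rw [linearIndepOn_singleton_iff]
    exact hj0
  obtain ⟨b, -, hjb, hspan, hb⟩ := exists_linearIndepOn_extension h1 (Set.subset_univ _)
  have hj : j0 ∈ b := hjb rfl
  have hfin : b.Finite := Set.toFinite b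
  have : Fintype b := hfin.fintype
  have hcard : 0 < Fintype.card b := Fintype.card_pos_iff.2 ⟨⟨j0, hj⟩⟩
  obtain ⟨m, hm⟩ := Nat.exists_eq_succ_of_ne_zero hcard.ne'
  let e0 : Fin (m + 1) ≃ b := (Fintype.equivFinOfCardEq hm).symm
  let e : Fin (m + 1) ≃ b := (Equiv.swap 0 (e0.symm ⟨j0, hj⟩)).trans e0
  have he0 : e 0 = ⟨j0, hj⟩ := by
    simp [e]
  let t : Fin (m + 1) → Fin N := fun i => e i
  have hli : LinearIndependent k fun i => x (t i) := by
    have := (linearIndependent_equiv e (f := fun i : b => x i)).2 hb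
    exact this
  have hcoef : ∀ f, ∃ c : Fin (m + 1) → k, x f = ∑ i, c i • x (t i) := by
    intro f
    have h2 : x f ∈ Submodule.span k (x '' b) := hspan ⟨f, Set.mem_univ f, rfl⟩
    have h3 : x '' b = Set.range fun i => x (t i) := by
      ext z
      constructor
      · rintro ⟨i, hi, rfl⟩
        exact ⟨e.symm ⟨i, hi⟩, by simp [t]⟩
      · rintro ⟨i, rfl⟩
        exact ⟨e i, (e i).2, rfl⟩
    rw [h3, Submodule.mem_span_range_iff_exists_fun] at h2
    obtain ⟨c, hc⟩ := h2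
    exact ⟨c, hc.symm⟩
  choose c hc using hcoef
  have hind : ∀ a : Fin (m + 1) → Ω, (∀ i, a i ∈ k) → ∑ i, a i * x (t i) = 0 → a = 0 := by
    intro a ha h0
    have h2 := Fintype.linearIndependent_iff.1 hli (fun i => ⟨a i, ha i⟩) (by
      rw [← h0]
      rfl)
    funext i
    exact congrArg Subtype.val (h2 i)
  refine ⟨m, t, fun i f => (c f i : Ω), ?_, ?_, fun f => ?_, fun i f => (c f i).2, hind⟩
  · change ((e 0 : b) : Fin N) = j0
    rw [he0]
  · intro i j
    have h2 := hind (fun i => (c (t j) i : Ω) - if i = j then 1 else 0) (fun i => by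
      refine k.sub_mem (c (t j) i).2 ?_
      split_ifs
      · exact k.one_mem
      · exact k.zero_mem) (by
      simp only [sub_mul, Finset.sum_sub_distrib, ite_mul, one_mul, zero_mul,
        Finset.sum_ite_eq', Finset.mem_univ, if_true]
      have h3 := hc (t j)
      rw [sub_eq_zero]
      exact h3.symm)
    have h3 := congrFun h2 i
    rw [Pi.zero_apply, sub_eq_zero] at h3
    exact h3
  · exact hc f

/-- Module HULL. -/
theorem hull : HullStatement := by
  intro Ω _ _ k Γ _ S D x j0 h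
  obtain ⟨m, t, P, h1, h2, h3, h4, h5⟩ := exists_chart k x j0 (by rw [h.hj0]; exact one_ne_zero)
  refine ⟨m, t, P, ?_, ⟨⟨h1, h2, h3⟩, h4, h5⟩⟩
  by_contra hm
  push Not at hm
  obtain rfl | rfl : m = 0 ∨ m = 1 := by omega
  · refine h.nl (P 0) 0 (h4 0) (fun _ => k.zero_mem) (x (t 0)) 0 ?_
    funext f
    rw [smul_zero, add_zero, Pi.smul_apply, smul_eq_mul]
    conv_lhs => rw [h3 f]
    rw [Fin.sum_univ_one, mul_comm]
  · refine h.nl (P 0) (P 1) (h4 0) (h4 1) (x (t 0)) (x (t 1)) ?_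
    funext f
    rw [Pi.add_apply, Pi.smul_apply, Pi.smul_apply, smul_eq_mul, smul_eq_mul]
    conv_lhs => rw [h3 f]
    rw [Fin.sum_univ_two, mul_comm, mul_comm (x (t 1))]

end Pool.Agent.T2.H19
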