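import Pool.Agent.Lib.MP_c7af3c_ag.T2.Base
import Pool.Agent.Lib.MP_c7af3c_ag.T2.H54.Basic
import Pool.Agent.Lib.MP_c7af3c_ag.EDGE.H19.Refine

/-!
# MP_c7af3c_ag, project T2: tools for the determinants of one block (helper19)
-/

set_option autoImplicit false
set_option linter.unusedSectionVars false

namespace Pool.Agent.T2.H19

open MvPolynomial Pool.Agent.Gen Pool.Agent.Sharp Pool.Agent.Edge Pool.Agent.Edge.H19

variable {Ω : Type} [Field Ω] (D : D6 Ω) (x : Fin (4 + 1) → Ω) (j0 : Fin (4 + 1))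

theorem VT_one (G : Fin 1 → MvPolynomial (Fin (4 + 1)) Ω) : VT D x G = D.V x 0 (G 0) := by
  rw [VT_apply, Fin.sum_univ_one]

theorem h0' (h0 : eval x (D.F 0) = 0) : ∀ m, eval x (D.F m) = 0 := by
  intro m
  rw [Subsingleton.elim m 0]
  exact h0

theorem gr_x (h0 : eval x (D.F 0) = 0) :
    ∑ p, eval x (pderiv p (D.F 0)) * x p = 0 := grad_x D x (h0' D x h0) 0

theorem gr_V (h0 : eval x (D.F 0) = 0) {G : MvPolynomial (Fin (4 + 1)) Ω} (hG : G.IsHomogeneous 6)
    (hx : eval x G = 0) : ∑ p, eval x (pderiv p (D.F 0)) * D.V x 0 G p = 0 := by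
  rw [Pool.Agent.Gen.H12.reln Ω 4 1 (fun _ => 6) D x (h0' D x h0) 0 0 G hG, hx]
  simp

theorem gr_WT (h0 : eval x (D.F 0) = 0) (p q : Fin (4 + 1)) :
    ∑ r, eval x (pderiv r (D.F 0)) * WT D x p q r = 0 := grad_WT D x (h0' D x h0) p q 0

theorem hom_lfA {A : MvPolynomial (Fin (4 + 1)) Ω} (hA : A.IsHomogeneous 5) (i : Fin (4 + 1)) :
    (A * lf x j0 i).IsHomogeneous 6 := hA.mul (hom_lf x j0 i)

theorem eval_lf' (hj0 : x j0 = 1) (i : Fin (4 + 1)) : eval x (lf x j0 i) = 0 := by
  unfold lf
  rw [map_sub, map_mul, eval_X, eval_X, eval_C, hj0, mul_one, sub_self]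

theorem lf_self (hj0 : x j0 = 1) : lf x j0 j0 = 0 := by
  unfold lf
  rw [hj0, C_1, one_mul, sub_self]

theorem gr_Vlf (hj0 : x j0 = 1) (h0 : eval x (D.F 0) = 0)
    {A : MvPolynomial (Fin (4 + 1)) Ω} (hA : A.IsHomogeneous 5) (i : Fin (4 + 1)) :
    ∑ p, eval x (pderiv p (D.F 0)) * D.V x 0 (A * lf x j0 i) p = 0 := by
  refine gr_V D x h0 (hom_lfA x j0 hA i) ?_
  rw [map_mul, eval_lf' x j0 hj0, mul_zero]

/-- a bounded column is tangent -/
theorem gr_Bc {k : Subfield Ω} (h0 : eval x (D.F 0) = 0) {u : Fin (4 + 1) → Ω}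
    (hu : Bc D x k u) : ∑ p, eval x (pderiv p (D.F 0)) * u p = 0 := by
  rcases hu with ⟨p, q, rfl⟩ | ⟨G, hG, hx, rfl⟩
  · exact gr_WT D x h0 p q
  · exact gr_V D x h0 hG.1 hx

section
variable {s r : ℕ} (ε : (Unit ⊕ (Fin s ⊕ Fin r)) ⊕ Fin 1 ≃ Fin (4 + 1))
  (η : Fin s → Fin (4 + 1) → Ω)

/-- all columns -/
noncomputable def cols (w : Fin r → Fin (4 + 1) → Ω) :
    (Unit ⊕ (Fin s ⊕ Fin r)) ⊕ Fin 1 → Fin (4 + 1) → Ω :=
  colU D x (Sum.elim (fun _ : Unit => x) (Sum.elim η w)) j0

theorem dt_eq (w : Fin r → Fin (4 + 1) → Ω) :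
    dt D x j0 ε η w = detA ε (cols D x j0 η w) := by
  rw [detA_apply]
  rfl

theorem cols_update [DecidableEq (Fin r)] [DecidableEq ((Unit ⊕ (Fin s ⊕ Fin r)) ⊕ Fin 1)]
    (w : Fin r → Fin (4 + 1) → Ω) (b : Fin r) (u : Fin (4 + 1) → Ω) :
    cols D x j0 η (Function.update w b u) =
      Function.update (cols D x j0 η w) (Sum.inl (Sum.inr (Sum.inr b))) u := by
  funext k
  rcases k with (a | (a | a)) | m
  · rw [Function.update_of_ne (by simp)]
    rfl
  · rw [Function.update_of_ne (by simp)]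
    rfl
  · by_cases h : a = b
    · subst h
      rw [Function.update_self]
      simp only [cols, colU, Sum.elim_inl, Sum.elim_inr, Function.update_self]
    · rw [Function.update_of_ne (by simpa using h)]
      simp only [cols, colU, Sum.elim_inl, Sum.elim_inr, Function.update_of_ne h]
  · rw [Function.update_of_ne (by simp)]
    rfl

/-- `dt` as an alternating form in the columns `w` -/
noncomputable def om : (Fin (4 + 1) → Ω) [⋀^Fin r]→ₗ[Ω] Ω where
  toFun w := dt D x j0 ε η w
  map_update_add' w b u v := by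
    classical
    rw [dt_eq, dt_eq, dt_eq, cols_update, cols_update, cols_update, AlternatingMap.map_update_add]
  map_update_smul' w b a u := by
    classical
    rw [dt_eq, dt_eq, cols_update, cols_update, AlternatingMap.map_update_smul]
  map_eq_zero_of_eq' w b b' h hb := by
    rw [dt_eq]
    refine AlternatingMap.map_eq_zero_of_eq _ _ (i := Sum.inl (Sum.inr (Sum.inr b)))
      (j := Sum.inl (Sum.inr (Sum.inr b'))) h ?_
    simpa using hb

theorem om_apply (w : Fin r → Fin (4 + 1) → Ω) : om D x j0 ε η w = dt D x j0 ε η w := rfl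

/-- a slot is zero on `Hs` -/
theorem om_Hs (w : Fin r → Fin (4 + 1) → Ω) (b : Fin r) {u : Fin (4 + 1) → Ω}
    (hu : u ∈ Hs x η) : om D x j0 ε η (Function.update w b u) = 0 := by
  classical
  unfold Hs at hu
  induction hu using Submodule.span_induction with
  | mem u hu =>
    rw [om_apply, dt_eq]
    rcases hu with rfl | ⟨a, rfl⟩
    · refine AlternatingMap.map_eq_zero_of_eq _ _ (i := Sum.inl (Sum.inl ()))
        (j := Sum.inl (Sum.inr (Sum.inr b))) ?_ (by simp)
      rw [cols_update, Function.update_self, Function.update_of_ne (by simp)]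
      rfl
    · refine AlternatingMap.map_eq_zero_of_eq _ _ (i := Sum.inl (Sum.inr (Sum.inl a)))
        (j := Sum.inl (Sum.inr (Sum.inr b))) ?_ (by simp)
      rw [cols_update, Function.update_self, Function.update_of_ne (by simp)]
      rfl
  | zero => exact (om D x j0 ε η).map_update_zero _ _
  | add u v _ _ hu hv => rw [AlternatingMap.map_update_add, hu, hv, add_zero]
  | smul a u _ hu => rw [AlternatingMap.map_update_smul, hu, smul_zero]

/-- the determinant only depends on the columns `w` modulo `Hs` -/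
theorem om_congr {w w' : Fin r → Fin (4 + 1) → Ω} (h : ∀ b, w b - w' b ∈ Hs x η) :
    om D x j0 ε η w = om D x j0 ε η w' := by
  classical
  have key : ∀ T : Finset (Fin r), om D x j0 ε η (fun b => if b ∈ T then w b else w' b) =
      om D x j0 ε η w' := by
    intro T
    induction T using Finset.induction_on with
    | empty => simp
    | insert b T hb ih =>
      have e1 : (fun c => if c ∈ insert b T then w c else w' c) =
          Function.update (fun c => if c ∈ T then w c else w' c) b (w' b + (w b - w' b)) := by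
        funext c
        by_cases hc : c = b
        · subst hc
          rw [Function.update_self]
          simp
        · rw [Function.update_of_ne hc]
          simp [Finset.mem_insert, hc]
      rw [e1, AlternatingMap.map_update_add, om_Hs D x j0 ε η _ b (h b), add_zero]
      have e2 : Function.update (fun c => if c ∈ T then w c else w' c) b (w' b) =
          fun c => if c ∈ T then w c else w' c := by
        rw [Function.update_eq_self_iff]
        simp [hb]
      rw [e2]
      exact ih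
  have := key Finset.univ
  simpa using this

/-- tangent vectors all whose determinants are zero are in `Hs` -/
theorem mem_Hs (hj0 : x j0 = 1) (h0 : eval x (D.F 0) = 0)
    (hη : ∀ a, ∑ p, eval x (pderiv p (D.F 0)) * η a p = 0) {w : Fin r → Fin (4 + 1) → Ω}
    (hw : ∀ b, ∑ p, eval x (pderiv p (D.F 0)) * w b p = 0) (hd : dt D x j0 ε η w ≠ 0)
    {u : Fin (4 + 1) → Ω} (hu : ∑ p, eval x (pderiv p (D.F 0)) * u p = 0)
    (h : ∀ b, om D x j0 ε η (Function.update w b u) = 0) : u ∈ Hs x η := by
  classical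
  set K := cols D x j0 η w with hK
  let M : Matrix ((Unit ⊕ (Fin s ⊕ Fin r)) ⊕ Fin 1) ((Unit ⊕ (Fin s ⊕ Fin r)) ⊕ Fin 1) Ω :=
    Matrix.of fun a k => K k (ε a)
  have hM : M.det = dt D x j0 ε η w := rfl
  let cr := M.cramer fun a => u (ε a)
  have h1 : ∀ p, ∑ k, cr k * K k p = M.det * u p := by
    intro p
    have h2 := congrFun (Matrix.mulVec_cramer M fun a => u (ε a)) (ε.symm p)
    rw [Pi.smul_apply, Equiv.apply_symm_apply, smul_eq_mul] at h2
    rw [← h2]
    unfold Matrix.mulVec dotProduct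
    refine Finset.sum_congr rfl fun k _ => ?_
    rw [mul_comm]
    change K k p * _ = K k (ε (ε.symm p)) * _
    rw [Equiv.apply_symm_apply]
  have h2 : ∀ b, cr (Sum.inl (Sum.inr (Sum.inr b))) = 0 := by
    intro b
    have h3 := h b
    rw [om_apply, dt_eq, cols_update, detA_apply] at h3
    change M.cramer _ _ = 0
    rw [Matrix.cramer_apply, ← h3]
    congr 1
    ext a k
    rw [Matrix.updateCol_apply, Matrix.of_apply]
    by_cases hk : k = Sum.inl (Sum.inr (Sum.inr b))
    · subst hk
      rw [if_pos rfl, Function.update_self]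
    · rw [if_neg hk, Function.update_of_ne hk]
      rfl
  have h3 : cr (Sum.inr 0) = 0 := by
    have h4 : ∑ p, eval x (pderiv p (D.F 0)) * (M.det * u p) = 0 := by
      rw [← mul_zero M.det, ← hu, Finset.mul_sum]
      exact Finset.sum_congr rfl fun p _ => by ring
    have h5 : ∑ k, cr k * ∑ p, eval x (pderiv p (D.F 0)) * K k p = 0 := by
      rw [← h4]
      simp only [← h1, Finset.mul_sum]
      rw [Finset.sum_comm]
      refine Finset.sum_congr rfl fun p _ => Finset.sum_congr rfl fun k _ => by ring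
    rw [Fintype.sum_sum_type, Fintype.sum_sum_type, Fintype.sum_sum_type, Fin.sum_univ_one] at h5
    have e1 : ∑ a : Unit, cr (Sum.inl (Sum.inl a)) *
        ∑ p, eval x (pderiv p (D.F 0)) * K (Sum.inl (Sum.inl a)) p = 0 := by
      refine Finset.sum_eq_zero fun a _ => ?_
      have : ∑ p, eval x (pderiv p (D.F 0)) * K (Sum.inl (Sum.inl a)) p = 0 := gr_x D x h0
      rw [this, mul_zero]
    have e2 : ∑ a : Fin s, cr (Sum.inl (Sum.inr (Sum.inl a))) *
        ∑ p, eval x (pderiv p (D.F 0)) * K (Sum.inl (Sum.inr (Sum.inl a))) p = 0 := by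
      refine Finset.sum_eq_zero fun a _ => ?_
      have : ∑ p, eval x (pderiv p (D.F 0)) * K (Sum.inl (Sum.inr (Sum.inl a))) p = 0 := hη a
      rw [this, mul_zero]
    have e3 : ∑ a : Fin r, cr (Sum.inl (Sum.inr (Sum.inr a))) *
        ∑ p, eval x (pderiv p (D.F 0)) * K (Sum.inl (Sum.inr (Sum.inr a))) p = 0 := by
      refine Finset.sum_eq_zero fun a _ => ?_
      rw [h2, zero_mul]
    have e4 : ∑ p, eval x (pderiv p (D.F 0)) * K (Sum.inr 0) p = -1 := by
      have := grad_U D x (h0' D x h0) 0 0 j0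
      rw [if_pos rfl, hj0, one_pow] at this
      exact this
    rw [e1, e2, e3, e4] at h5
    simpa using h5
  have h6 : M.det • u = cr (Sum.inl (Sum.inl ())) • x +
      ∑ a, cr (Sum.inl (Sum.inr (Sum.inl a))) • η a := by
    funext p
    rw [Pi.smul_apply, smul_eq_mul, ← h1 p, Fintype.sum_sum_type, Fintype.sum_sum_type,
      Fintype.sum_sum_type, Fin.sum_univ_one, h3, zero_mul, add_zero, Pi.add_apply,
      Finset.sum_apply]
    have e3 : ∑ a : Fin r, cr (Sum.inl (Sum.inr (Sum.inr a))) *
        K (Sum.inl (Sum.inr (Sum.inr a))) p = 0 :=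
      Finset.sum_eq_zero fun a _ => by rw [h2, zero_mul]
    rw [e3, add_zero, Fintype.sum_unique]
    rfl
  have h7 : M.det ≠ 0 := by rw [hM]; exact hd
  have h8 : M.det • u ∈ Hs x η := by
    rw [h6]
    refine Submodule.add_mem _ (Submodule.smul_mem _ _ (Submodule.subset_span
      (Set.mem_insert _ _))) (Submodule.sum_mem _ fun a _ => Submodule.smul_mem _ _
      (Submodule.subset_span (Set.mem_insert_of_mem _ ⟨a, rfl⟩)))
  have h9 := Submodule.smul_mem (Hs x η) M.det⁻¹ h8
  rwa [smul_smul, inv_mul_cancel₀ h7, one_smul] at h9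

/-- independent tangent columns have a nonzero determinant -/
theorem dt_ne_zero (hj0 : x j0 = 1) (h0 : eval x (D.F 0) = 0)
    (hη : ∀ a, ∑ p, eval x (pderiv p (D.F 0)) * η a p = 0) {w : Fin r → Fin (4 + 1) → Ω}
    (hw : ∀ b, ∑ p, eval x (pderiv p (D.F 0)) * w b p = 0)
    (hli : LinearIndependent Ω (Sum.elim (fun _ : Unit => x) (Sum.elim η w))) :
    dt D x j0 ε η w ≠ 0 := by
  classical
  have hc : Fintype.card (Unit ⊕ (Fin s ⊕ Fin r)) + 1 = 4 + 1 := by
    have := Fintype.card_congr ε
    rw [Fintype.card_sum, Fintype.card_fin, Fintype.card_fin] at this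
    exact this
  obtain ⟨μ, hμ, hdet⟩ := detU D x (h0' D x h0) _ hli (by
    rintro (_ | (j | j)) m
    · rw [Subsingleton.elim m 0]; exact gr_x D x h0
    · rw [Subsingleton.elim m 0]; exact hη j
    · rw [Subsingleton.elim m 0]; exact hw j) hc hj0 ε
  have h1 := hdet j0
  rw [hj0, one_pow, mul_one] at h1
  unfold dt
  rw [h1]
  exact hμ

/-- independence from a nonzero determinant -/
theorem li_of_dt {w : Fin r → Fin (4 + 1) → Ω} (hd : dt D x j0 ε η w ≠ 0) :
    LinearIndependent Ω (Sum.elim (fun _ : Unit => x) (Sum.elim η w)) := by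
  classical
  have h1 : LinearIndependent Ω (cols D x j0 η w) := by
    by_contra hcon
    apply hd
    rw [dt_eq]
    exact AlternatingMap.map_linearDependent _ _ hcon
  have h2 := h1.comp (Sum.inl : Unit ⊕ (Fin s ⊕ Fin r) → _) Sum.inl_injective
  exact h2

/-- `A ↦ V(A l)` -/
noncomputable def VM (l : MvPolynomial (Fin (4 + 1)) Ω) :
    MvPolynomial (Fin (4 + 1)) Ω →ₗ[Ω] (Fin (4 + 1) → Ω) :=
  (D.V x 0).comp (LinearMap.mulRight Ω l)

theorem VM_apply (l A : MvPolynomial (Fin (4 + 1)) Ω) : VM D x l A = D.V x 0 (A * l) := rfl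

/-- forms of degree 5 are spanned by the forms over `k` -/
theorem hom_span (k : Subfield Ω) {σ : Type} {d : ℕ} {A : MvPolynomial σ Ω}
    (hA : A.IsHomogeneous d) : A ∈ Submodule.span Ω {B | Fk k d B} := by
  classical
  rw [A.as_sum]
  refine Submodule.sum_mem _ fun I hI => ?_
  have h1 : monomial I (coeff I A) = coeff I A • (monomial I 1 : MvPolynomial σ Ω) := by
    rw [smul_monomial, smul_eq_mul, mul_one]
  rw [h1]
  refine Submodule.smul_mem _ _ (Submodule.subset_span ⟨?_, fun J => ?_⟩)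
  · refine isHomogeneous_monomial _ ?_
    have h2 := hA (mem_support_iff.1 hI)
    rw [Finsupp.degree_eq_weight_one]
    exact h2
  · rw [coeff_monomial]
    split_ifs
    · exact k.one_mem
    · exact k.zero_mem

end

end Pool.Agent.T2.H19
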