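import Pool.Agent.Lib.MP_c7af3c_ag.T2.Iface
import Pool.Agent.Lib.MP_c7af3c_ag.T2.H19.Blk

/-!
# MP_c7af3c_ag, project T2: module VANB (helper19)
-/

set_option autoImplicit false

namespace Pool.Agent.T2.H19

open MvPolynomial Pool.Agent.Gen Pool.Agent.Sharp Pool.Agent.Edge Pool.Agent.Edge.H19

/-- a form `ω` with `P_l ∧ ω = 0` for all `l` -/
theorem wedge_lemma {K ι : Type} [Field K] : ∀ (r m : ℕ) (ω : (Fin r → ι) → K)
    (P : Fin m → ι → K) (e : Fin m → ι), (∀ i j, P i (e j) = if i = j then 1 else 0) →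
    (∀ l (v : Fin (r + 1) → ι),
      ∑ a : Fin (r + 1), (-1) ^ (a : ℕ) * P l (v a) * ω (fun b => v (a.succAbove b)) = 0) →
    (∃ v, ω v ≠ 0) → m ≤ r ∧ ∀ h : r = m, ω (fun b => e (Fin.cast h b)) ≠ 0 ∧ ∀ v,
      ω v = ω (fun b => e (Fin.cast h b)) *
        Matrix.det (Matrix.of fun (l : Fin r) (b : Fin r) => P (Fin.cast h l) (v b)) := by
  intro r
  induction r with
  | zero =>
    intro m ω P e hPe hw hne
    obtain ⟨v, hv⟩ := hne
    have hm : m = 0 := by
      by_contra hm
      obtain ⟨m', rfl⟩ := Nat.exists_eq_succ_of_ne_zero hm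
      have h1 := hw 0 (fun _ => e 0)
      rw [Fin.sum_univ_one, hPe, if_pos rfl, Fin.val_zero, pow_zero, one_mul, one_mul] at h1
      exact hv (by rw [← h1]; congr 1; exact Subsingleton.elim _ _)
    subst hm
    refine ⟨le_refl 0, fun h => ⟨?_, fun v' => ?_⟩⟩
    · intro h0
      apply hv
      rw [← h0]
      congr 1
      exact Subsingleton.elim _ _
    · rw [Matrix.det_isEmpty, mul_one]
      congr 1
      exact Subsingleton.elim _ _
  | succ r ih =>
    intro m ω P e hPe hw hne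
    rcases m with _ | m
    · exact ⟨Nat.zero_le _, fun h => absurd h (Nat.succ_ne_zero r)⟩
    let ω' : (Fin r → ι) → K := fun v => ω (Fin.cons (e 0) v)
    -- expansion along `e 0`
    have hexp : ∀ l (v : Fin (r + 1) → ι), P l (e 0) * ω v =
        ∑ a : Fin (r + 1), (-1) ^ (a : ℕ) * P l (v a) * ω' (fun b => v (a.succAbove b)) := by
      intro l v
      have h1 := hw l (Fin.cons (e 0) v)
      rw [Fin.sum_univ_succ] at h1
      simp only [Fin.val_zero, pow_zero, one_mul, Fin.cons_zero, Fin.zero_succAbove,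
        Fin.cons_succ, Fin.val_succ, pow_succ, mul_neg, mul_one, neg_mul,
        Finset.sum_neg_distrib] at h1
      have h2 : ∀ a : Fin (r + 1), (fun b : Fin (r + 1) =>
          (Fin.cons (e 0) v : Fin (r + 2) → ι) (a.succ.succAbove b)) =
          Fin.cons (e 0) fun b => v (a.succAbove b) := by
        intro a
        funext b
        refine Fin.cases ?_ (fun b => ?_) b
        · rw [Fin.succ_succAbove_zero, Fin.cons_zero, Fin.cons_zero]
        · rw [Fin.succ_succAbove_succ, Fin.cons_succ, Fin.cons_succ]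
      simp only [h2] at h1
      linear_combination h1
    have h00 : P 0 (e 0) = 1 := by rw [hPe, if_pos rfl]
    have hω : ∀ v, ω v = ∑ a : Fin (r + 1), (-1) ^ (a : ℕ) * P 0 (v a) *
        ω' (fun b => v (a.succAbove b)) := by
      intro v
      rw [← hexp, h00, one_mul]
    obtain ⟨h1, h2⟩ := ih m ω' (fun l => P l.succ) (fun l => e l.succ) (fun i j => by
        rw [hPe]
        simp [Fin.succ_inj]) (fun l v => by
        rw [← hexp, hPe, if_neg (Fin.succ_ne_zero l), zero_mul]) (by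
        by_contra hcon
        push Not at hcon
        obtain ⟨v, hv⟩ := hne
        apply hv
        rw [hω]
        exact Finset.sum_eq_zero fun a _ => by rw [hcon, mul_zero])
    refine ⟨Nat.succ_le_succ h1, fun h => ?_⟩
    have h' : r = m := Nat.succ_injective h
    obtain ⟨h3, h4⟩ := h2 h'
    have e1 : (fun b : Fin (r + 1) => e (Fin.cast h b)) =
        Fin.cons (e 0) fun b => e (Fin.cast h' b).succ := by
      funext b
      refine Fin.cases ?_ (fun b => ?_) b
      · rw [Fin.cons_zero]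
        rfl
      · rw [Fin.cons_succ]
        rfl
    refine ⟨by rw [e1]; exact h3, fun v => ?_⟩
    rw [hω, e1, Matrix.det_succ_row_zero, Finset.mul_sum]
    refine Finset.sum_congr rfl fun a _ => ?_
    rw [h4]
    have e2 : ((Matrix.of fun (l : Fin (r + 1)) (b : Fin (r + 1)) =>
        P (Fin.cast h l) (v b)).submatrix Fin.succ a.succAbove) =
        Matrix.of fun (l : Fin r) (b : Fin r) => P (Fin.cast h' l).succ (v (a.succAbove b)) := by
      ext l b
      rfl
    rw [e2, Matrix.of_apply]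
    have e3 : P (Fin.cast h 0) (v a) = P 0 (v a) := rfl
    rw [e3]
    change _ = ω' _ * _
    ring

section

variable {Ω : Type} [Field Ω] (D : D6 Ω) (x : Fin (4 + 1) → Ω) (j0 : Fin (4 + 1))
  {s r : ℕ} (ε : (Unit ⊕ (Fin s ⊕ Fin r)) ⊕ Fin 1 ≃ Fin (4 + 1))
  (η : Fin s → Fin (4 + 1) → Ω)

/-- the values on linear forms -/
noncomputable def wo (A : MvPolynomial (Fin (4 + 1)) Ω) (i : Fin r → Fin (4 + 1)) : Ω :=
  dt D x j0 ε η fun b => D.V x 0 (A * lf x j0 (i b))

theorem wo_j0 (hj0 : x j0 = 1) (A : MvPolynomial (Fin (4 + 1)) Ω) (i : Fin r → Fin (4 + 1))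
    (b : Fin r) (hb : i b = j0) : wo D x j0 ε η A i = 0 := by
  unfold wo
  rw [← om_apply]
  refine AlternatingMap.map_coord_zero _ b ?_
  rw [hb, lf_self x j0 hj0, mul_zero, map_zero]

theorem tauB_eq (A : MvPolynomial (Fin (4 + 1)) Ω) (i : Fin (r + 1) → Fin (4 + 1)) :
    tauB D x j0 ε η A i = ∑ a : Fin (r + 1), (-1) ^ (a : ℕ) * x (i a) *
      wo D x j0 ε η A fun b => i (a.succAbove b) := rfl

/-- the values are contractions -/
theorem wo_eq_tauB (hj0 : x j0 = 1) (A : MvPolynomial (Fin (4 + 1)) Ω)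
    (i : Fin r → Fin (4 + 1)) :
    wo D x j0 ε η A i = tauB D x j0 ε η A (Fin.cons j0 i) := by
  rw [tauB_eq, Fin.sum_univ_succ]
  simp only [Fin.val_zero, pow_zero, one_mul, Fin.cons_zero, Fin.zero_succAbove, Fin.cons_succ]
  rw [hj0, one_mul, Finset.sum_eq_zero, add_zero]
  intro a _
  rw [wo_j0 D x j0 ε η hj0 A _ ⟨0, (Nat.zero_le _).trans_lt a.2⟩, mul_zero]
  have h1 : a.succ.succAbove ⟨0, (Nat.zero_le _).trans_lt a.2⟩ = 0 := by
    rw [Fin.succAbove_of_castSucc_lt]
    · rfl
    · rw [Fin.lt_def]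
      simp
  rw [h1, Fin.cons_zero]

theorem hull_y0 {k : Subfield Ω} {m : ℕ} {t : Fin (m + 1) → Fin (4 + 1)}
    {P : Fin (m + 1) → Fin (4 + 1) → Ω} (hj0 : x j0 = 1) (hH : Hull k x j0 t P) :
    x (t 0) = 1 := by rw [hH.t0, hj0]

/-- `P_l ∧ ω = 0` for `l ≥ 1` -/
theorem wedge_zero {k : Subfield Ω} {m : ℕ} {t : Fin (m + 1) → Fin (4 + 1)}
    {P : Fin (m + 1) → Fin (4 + 1) → Ω} (hj0 : x j0 = 1) (hH : Hull k x j0 t P)
    {A : MvPolynomial (Fin (4 + 1)) Ω} (hT : ∀ i, tauB D x j0 ε η A i ∈ k) (l : Fin m)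
    (v : Fin (r + 1) → Fin (4 + 1)) :
    ∑ a : Fin (r + 1), (-1) ^ (a : ℕ) * P l.succ (v a) *
      wo D x j0 ε η A (fun b => v (a.succAbove b)) = 0 := by
  classical
  have hw : ∀ i, wo D x j0 ε η A i ∈ k := fun i => by
    rw [wo_eq_tauB D x j0 ε η hj0]
    exact hT _
  have h1 := hH.yk (fun l => (∑ a : Fin (r + 1), (-1) ^ (a : ℕ) * P l (v a) *
      wo D x j0 ε η A (fun b => v (a.succAbove b))) -
      if l = 0 then tauB D x j0 ε η A v else 0) (fun l => by
    refine k.sub_mem (k.sum_mem fun a _ => k.mul_mem (k.mul_mem (k.pow_mem (k.neg_mem k.one_mem) _)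
      (hH.Pk l _)) (hw _)) ?_
    split_ifs
    · exact hT v
    · exact k.zero_mem) (by
    simp only [sub_mul, Finset.sum_sub_distrib, ite_mul, zero_mul,
      Finset.sum_ite_eq', Finset.mem_univ, if_true]
    rw [hull_y0 x j0 hj0 hH, mul_one, sub_eq_zero, tauB_eq]
    simp only [Finset.sum_mul]
    rw [Finset.sum_comm]
    refine Finset.sum_congr rfl fun a _ => ?_
    conv_rhs => rw [hH.xP (v a)]
    rw [Finset.mul_sum, Finset.sum_mul]
    exact Finset.sum_congr rfl fun l _ => by ring)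
  have h2 := congrFun h1 l.succ
  rw [Pi.zero_apply, if_neg (Fin.succ_ne_zero l), sub_zero] at h2
  exact h2

/-- the form which vanishes on the hull -/
theorem lam_eq {m : ℕ} {t : Fin (m + 1) → Fin (4 + 1)}
    {P : Fin (m + 1) → Fin (4 + 1) → Ω} (hC : Cht x j0 t P) (f : Fin (4 + 1)) :
    lam t P f = lf x j0 f - ∑ i, P i f • lf x j0 (t i) := by
  unfold lam lf
  have h1 : ∑ i, P i f • (X (t i) - C (x (t i)) * X j0 : MvPolynomial (Fin (4 + 1)) Ω) =
      ∑ i, C (P i f) * X (t i) - C (x f) * X j0 := by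
    simp only [smul_eq_C_mul, mul_sub, Finset.sum_sub_distrib]
    congr 1
    rw [hC.xP f, map_sum, Finset.sum_mul]
    exact Finset.sum_congr rfl fun i _ => by rw [C_mul, mul_assoc]
  rw [h1]
  ring

theorem V_lam {m : ℕ} {t : Fin (m + 1) → Fin (4 + 1)}
    {P : Fin (m + 1) → Fin (4 + 1) → Ω} (hC : Cht x j0 t P) (A : MvPolynomial (Fin (4 + 1)) Ω)
    (f : Fin (4 + 1)) : D.V x 0 (A * lam t P f) =
      D.V x 0 (A * lf x j0 f) - ∑ i, P i f • D.V x 0 (A * lf x j0 (t i)) := by
  rw [lam_eq x j0 hC, mul_sub, map_sub, Finset.mul_sum, map_sum]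
  congr 1
  refine Finset.sum_congr rfl fun i _ => ?_
  rw [mul_smul_comm, map_smul]

theorem eval_lam {m : ℕ} {t : Fin (m + 1) → Fin (4 + 1)}
    {P : Fin (m + 1) → Fin (4 + 1) → Ω} (hC : Cht x j0 t P) (f : Fin (4 + 1)) :
    eval x (lam t P f) = 0 := by
  unfold lam
  rw [map_sub, map_sum, eval_X, sub_eq_zero]
  conv_lhs => rw [hC.xP f]
  exact Finset.sum_congr rfl fun i _ => by rw [map_mul, eval_C, eval_X]

theorem hom_lam {m : ℕ} (t : Fin (m + 1) → Fin (4 + 1))
    (P : Fin (m + 1) → Fin (4 + 1) → Ω) (f : Fin (4 + 1)) : (lam t P f).IsHomogeneous 1 :=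
  (isHomogeneous_X Ω f).sub (IsHomogeneous.sum _ _ _ fun _ _ => hom_CX _ _)

/-- one `A`: the columns `V(A λ)` are in `Hs` -/
theorem van_one {k : Subfield Ω} {t : Fin (r + 1) → Fin (4 + 1)}
    {P : Fin (r + 1) → Fin (4 + 1) → Ω} (hj0 : x j0 = 1) (h0 : eval x (D.F 0) = 0)
    (hη : ∀ a, ∑ p, eval x (pderiv p (D.F 0)) * η a p = 0) (hH : Hull k x j0 t P)
    {A : MvPolynomial (Fin (4 + 1)) Ω} (hA : A.IsHomogeneous 5)
    (hT : ∀ i, tauB D x j0 ε η A i ∈ k) (hne : ∃ i, wo D x j0 ε η A i ≠ 0) :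
    (wo D x j0 ε η A fun b => t b.succ) ≠ 0 ∧
    ∀ f, D.V x 0 (A * lam t P f) ∈ Hs x η := by
  classical
  obtain ⟨-, h2⟩ := wedge_lemma r r (wo D x j0 ε η A) (fun l => P l.succ) (fun l => t l.succ)
    (fun i j => by rw [hH.Pt]; simp [Fin.succ_inj]) (fun l v =>
      wedge_zero D x j0 ε η hj0 hH hT l v) hne
  obtain ⟨h3, h4⟩ := h2 rfl
  have h3' : (wo D x j0 ε η A fun b => t b.succ) ≠ 0 := h3
  refine ⟨h3', fun f => ?_⟩
  refine mem_Hs D x j0 ε η hj0 h0 hη (fun b => gr_Vlf D x j0 hj0 h0 hA (t (Fin.succ b))) h3'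
    (gr_V D x h0 (hA.mul (hom_lam t P f)) (by rw [map_mul, eval_lam x j0 hH.toCht, mul_zero]))
    fun b => ?_
  -- the determinants with an index replaced
  have h5 : ∀ g, om D x j0 ε η (Function.update (fun b => D.V x 0 (A * lf x j0 (t (Fin.succ b)))) b
      (D.V x 0 (A * lf x j0 g))) =
      (wo D x j0 ε η A fun b => t b.succ) * P b.succ g := by
    intro g
    have h6 := h4 (Function.update (fun b => t b.succ) b g)
    have h7 : wo D x j0 ε η A (Function.update (fun b => t b.succ) b g) =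
        om D x j0 ε η (Function.update (fun b => D.V x 0 (A * lf x j0 (t (Fin.succ b)))) b
      (D.V x 0 (A * lf x j0 g))) := by
      unfold wo
      rw [om_apply]
      congr 1
      funext c
      by_cases hc : c = b
      · subst hc
        rw [Function.update_self, Function.update_self]
      · rw [Function.update_of_ne hc, Function.update_of_ne hc]
    rw [← h7, h6]
    congr 1
    have h8 : (Matrix.of fun (l : Fin r) (c : Fin r) => P (Fin.cast rfl l).succ
        (Function.update (fun b => t b.succ) b g c)) =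
        (1 : Matrix (Fin r) (Fin r) Ω).updateCol b fun l => P l.succ g := by
      ext l c
      rw [Matrix.of_apply, Matrix.updateCol_apply]
      by_cases hc : c = b
      · subst hc
        rw [Function.update_self, if_pos rfl]
        rfl
      · rw [Function.update_of_ne hc, if_neg hc]
        change P l.succ (t c.succ) = _
        rw [hH.Pt, Matrix.one_apply]
        simp [Fin.succ_inj]
    rw [h8]
    rw [← Matrix.cramer_apply, Matrix.cramer_one]
    rfl
  rw [V_lam D x j0 hH.toCht, AlternatingMap.map_update_sub, AlternatingMap.map_update_sum, h5]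
  have h6 : ∀ i : Fin (r + 1), om D x j0 ε η (Function.update
      (fun b => D.V x 0 (A * lf x j0 (t (Fin.succ b)))) b (P i f • D.V x 0 (A * lf x j0 (t i)))) =
      if i = b.succ then (wo D x j0 ε η A fun b => t b.succ) * P b.succ f else 0 := by
    intro i
    rw [AlternatingMap.map_update_smul, h5, hH.Pt, smul_eq_mul]
    by_cases hi : i = b.succ
    · subst hi
      rw [if_pos rfl, if_pos rfl]
      ring
    · rw [if_neg hi, if_neg (Ne.symm hi)]
      ring
  rw [Finset.sum_congr rfl fun i _ => h6 i, Finset.sum_ite_eq', if_pos (Finset.mem_univ _),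
    sub_self]

/-- a good multiple -/
theorem exists_mult [CharZero Ω] (w w' : Fin r → Fin (4 + 1) → Ω)
    (hw : dt D x j0 ε η w ≠ 0) :
    ∃ z : ℕ, z ≠ 0 ∧ dt D x j0 ε η (fun b => w b + (z : Ω) • w' b) ≠ 0 := by
  classical
  -- the polynomial in the multiple
  let K : (Unit ⊕ (Fin s ⊕ Fin r)) ⊕ Fin 1 → Fin (4 + 1) → Ω := cols D x j0 η w
  let K' : (Unit ⊕ (Fin s ⊕ Fin r)) ⊕ Fin 1 → Fin (4 + 1) → Ω :=
    Sum.elim (Sum.elim (fun _ => 0) (Sum.elim (fun _ => 0) w')) fun _ => 0
  let p : Polynomial Ω := Matrix.det (Matrix.of fun a k => Polynomial.C (K k (ε a)) +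
    Polynomial.X * Polynomial.C (K' k (ε a)))
  have hp : ∀ z : Ω, p.eval z = dt D x j0 ε η (fun b => w b + z • w' b) := by
    intro z
    rw [dt_eq, detA_apply]
    change Polynomial.evalRingHom z p = _
    rw [RingHom.map_det]
    congr 1
    ext a k
    rw [RingHom.mapMatrix_apply, Matrix.map_apply, Matrix.of_apply, Matrix.of_apply]
    simp only [Polynomial.coe_evalRingHom, Polynomial.eval_add, Polynomial.eval_C,
      Polynomial.eval_mul, Polynomial.eval_X]
    have hz0 : ∀ q : Ω, q + z * (0 : Ω) = q := fun q => by rw [mul_zero, add_zero]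
    rcases k with (a' | (a' | a')) | m
    · exact hz0 _
    · exact hz0 _
    · rfl
    · exact hz0 _
  have hp0 : p ≠ 0 := by
    intro h
    apply hw
    have h1 := hp 0
    rw [h, Polynomial.eval_zero] at h1
    rw [h1]
    congr 1
    funext b
    rw [zero_smul, add_zero]
  by_contra hcon
  push Not at hcon
  apply hp0
  refine Polynomial.eq_zero_of_infinite_isRoot _ ?_
  refine Set.Infinite.mono (s := Set.range fun z : ℕ => ((z + 1 : ℕ) : Ω)) ?_ ?_
  · rintro _ ⟨z, rfl⟩
    change p.eval _ = 0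
    rw [hp]
    exact hcon (z + 1) (Nat.succ_ne_zero z)
  · refine Set.infinite_range_of_injective fun a b hab => ?_
    have := Nat.cast_injective (R := Ω) hab
    exact Nat.succ_injective this

end

/-- Module VANB. -/
theorem vanb : VanbStatement := by
  classical
  intro hLoc hTau Ω _ _ k Γ _ S D x j0 h s r ε η hr hη A1 hA1 i1 hne m t P hH
  have h0 := h.h0 0
  have hT := hTau hLoc Ω k Γ S D x j0 h
  have hgη : ∀ a, ∑ p, eval x (pderiv p (D.F 0)) * η a p = 0 := fun a => gr_Bc D x h0 (hη a)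
  have hne' : wo D x j0 ε η A1 i1 ≠ 0 := hne
  obtain ⟨h1, -⟩ := wedge_lemma r m (wo D x j0 ε η A1) (fun l => P l.succ) (fun l => t l.succ)
    (fun i j => by rw [hH.Pt]; simp [Fin.succ_inj]) (fun l v =>
      wedge_zero D x j0 ε η h.hj0 hH (hT s r ε η hη A1 hA1) l v) ⟨i1, hne'⟩
  refine ⟨h1, ?_⟩
  rintro rfl
  obtain ⟨h2, h3⟩ := van_one D x j0 ε η h.hj0 h0 hgη hH hA1.1 (hT s m ε η hη A1 hA1) ⟨i1, hne'⟩
  refine ⟨fun A hA f => ?_, fun t' ht' => ?_⟩
  · clear hLoc
    -- forms over `k`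
    have key : ∀ B, Fk k 5 B → D.V x 0 (B * lam t P f) ∈ Hs x η := by
      intro B hB
      obtain ⟨z, hz, hz'⟩ := exists_mult D x j0 ε η
        (fun b => D.V x 0 (A1 * lf x j0 (t (Fin.succ b))))
        (fun b => D.V x 0 (B * lf x j0 (t (Fin.succ b)))) h2
      have hzB : Fk k 5 (A1 + C (z : Ω) * B) := by
        refine ⟨hA1.1.add ?_, fun I => ?_⟩
        · have := (isHomogeneous_C (Fin (4 + 1)) (z : Ω)).mul hB.1
          rwa [zero_add] at this
        · rw [coeff_add, coeff_C_mul]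
          exact k.add_mem (hA1.2 I) (k.mul_mem (natCast_mem k z) (hB.2 I))
      have hV : ∀ l : MvPolynomial (Fin (4 + 1)) Ω, D.V x 0 ((A1 + C (z : Ω) * B) * l) =
          D.V x 0 (A1 * l) + (z : Ω) • D.V x 0 (B * l) := by
        intro l
        rw [add_mul, map_add, ← map_smul, smul_eq_C_mul, mul_assoc]
      have h4 := (van_one D x j0 ε η h.hj0 h0 hgη hH hzB.1 (hT s m ε η hη _ hzB)
        ⟨fun b => t (Fin.succ b), by
          unfold wo
          simp only [hV]
          exact hz'⟩).2 f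
      rw [hV] at h4
      have h5 := (Submodule.add_mem_iff_right _ (h3 f)).1 h4
      exact (Submodule.smul_mem_iff _ (Nat.cast_ne_zero.2 hz)).1 h5
    have h4 := hom_span k hA
    clear hA
    induction h4 using Submodule.span_induction with
    | mem B hB => exact key B hB
    | zero => rw [zero_mul, map_zero]; exact Submodule.zero_mem _
    | add B B' _ _ hB hB' => rw [add_mul, map_add]; exact Submodule.add_mem _ hB hB'
    | smul a B _ hB =>
      rw [smul_mul_assoc, map_smul]
      exact Submodule.smul_mem _ _ hB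
  · have h4 : t' = fun b => t b.succ := by
      funext b
      exact ht' b b.succ (by simp)
    rw [h4]
    exact h2

end Pool.Agent.T2.H19
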