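import Pool.Agent.Lib.MP_c7af3c_ag.T2.H19.Vanb

/-!
# MP_c7af3c_ag, project T2: module WORDB (helper19)
-/

set_option autoImplicit false
set_option linter.unusedSectionVars false
set_option linter.unusedVariables false

namespace Pool.Agent.T2.H19

open MvPolynomial Pool.Agent.Gen Pool.Agent.Sharp Pool.Agent.Edge Pool.Agent.Edge.H19

section basis

variable {Ω : Type} [Field Ω]

/-- base change: the forms `X_i - (y_i/y_b) X_b` in terms of the `X_i - y_i X_0` -/
def Qm {r : ℕ} (y : Fin (r + 1) → Ω) (b : Fin (r + 1)) : Matrix (Fin r) (Fin r) Ω :=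
  Matrix.of fun i j => (if i.succ = b.succAbove j then 1 else 0) -
    if i.succ = b then y (b.succAbove j) / y b else 0

theorem det_Qm {r : ℕ} (y : Fin (r + 1) → Ω) (hy : y 0 = 1) (b : Fin (r + 1)) (hb : y b ≠ 0) :
    (Qm y b).det = (y b)⁻¹ ∨ (Qm y b).det = -(y b)⁻¹ := by
  classical
  refine Fin.cases ?_ (fun b => ?_) b (motive := fun b => y b ≠ 0 → (Qm y b).det = (y b)⁻¹ ∨
    (Qm y b).det = -(y b)⁻¹) hb
  · intro _
    left
    have h1 : Qm y 0 = 1 := by
      ext i j
      unfold Qm
      rw [Matrix.of_apply, if_neg (Fin.succ_ne_zero i), sub_zero, Matrix.one_apply]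
      simp [Fin.succ_inj]
    rw [h1, Matrix.det_one, hy, inv_one]
  · intro hb
    rcases r with _ | r
    · exact b.elim0
    have h1 : (Qm y b.succ).det = (-1) ^ (b : ℕ) * -(y b.succ)⁻¹ := by
      rw [Matrix.det_succ_column_zero, Finset.sum_eq_single b]
      · have h2 : Qm y b.succ b 0 = -(y b.succ)⁻¹ := by
          unfold Qm
          rw [Matrix.of_apply, if_pos rfl, Fin.succ_succAbove_zero, if_neg (Fin.succ_ne_zero b),
            hy, zero_sub, one_div]
        have h3 : (Qm y b.succ).submatrix b.succAbove Fin.succ = 1 := by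
          ext i j
          rw [Matrix.submatrix_apply, Matrix.one_apply]
          unfold Qm
          rw [Matrix.of_apply, Fin.succ_succAbove_succ]
          have e1 : (b.succAbove i).succ ≠ b.succ := fun h =>
            Fin.succAbove_ne b i (Fin.succ_injective _ h)
          rw [if_neg e1, sub_zero]
          simp [Fin.succ_inj, Fin.succAbove_right_inj]
        rw [h2, h3, Matrix.det_one, mul_one]
      · intro i _ hi
        have h2 : Qm y b.succ i 0 = 0 := by
          unfold Qm
          have e1 : i.succ ≠ b.succ := fun h => hi (Fin.succ_injective _ h)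
          rw [Matrix.of_apply, Fin.succ_succAbove_zero, if_neg (Fin.succ_ne_zero i),
            if_neg e1, sub_zero]
        rw [h2, mul_zero, zero_mul]
      · intro h; exact absurd (Finset.mem_univ _) h
    rw [h1]
    rcases neg_one_pow_eq_or Ω (b : ℕ) with h | h
    · rw [h, one_mul]; right; rfl
    · rw [h]; left; ring

end basis

section

variable {Ω : Type} [Field Ω] (D : D6 Ω) (x : Fin (4 + 1) → Ω) (j0 : Fin (4 + 1))
  {s r : ℕ} (ε : (Unit ⊕ (Fin s ⊕ Fin r)) ⊕ Fin 1 ≃ Fin (4 + 1))
  (η : Fin s → Fin (4 + 1) → Ω)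

/-- the forms adapted to the coordinate `t b` -/
noncomputable def lb (t : Fin (r + 1) → Fin (4 + 1)) (b : Fin (r + 1)) (j : Fin r) :
    MvPolynomial (Fin (4 + 1)) Ω :=
  X (t (b.succAbove j)) - C (x (t (b.succAbove j)) / x (t b)) * X (t b)

theorem lb_eq {t : Fin (r + 1) → Fin (4 + 1)} (hj0 : x j0 = 1) (ht : t 0 = j0)
    (b : Fin (r + 1)) (hb : x (t b) ≠ 0) (j : Fin r) :
    lb x t b j = ∑ i, Qm (fun i => x (t i)) b i j • lf x j0 (t i.succ) := by
  classical
  -- add the term with index `0`, which is zero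
  have hz : lf x j0 (t 0) = 0 := by rw [ht]; exact lf_self x j0 hj0
  have h1 : ∀ q : Fin (r + 1) → Ω, ∑ i : Fin r, q i.succ • lf x j0 (t i.succ) =
      ∑ i : Fin (r + 1), q i • lf x j0 (t i) := by
    intro q
    rw [Fin.sum_univ_succ, hz, smul_zero, zero_add]
  have h2 := h1 (fun i => (if i = b.succAbove j then 1 else 0) -
    if i = b then x (t (b.succAbove j)) / x (t b) else 0)
  have h3 : ∑ i, Qm (fun i => x (t i)) b i j • lf x j0 (t i.succ) =
      ∑ i : Fin r, ((if i.succ = b.succAbove j then 1 else 0) -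
    if i.succ = b then x (t (b.succAbove j)) / x (t b) else 0) • lf x j0 (t i.succ) := rfl
  rw [h3, h2]
  simp only [sub_smul, Finset.sum_sub_distrib, ite_smul, one_smul, zero_smul,
    Finset.sum_ite_eq', Finset.mem_univ, if_true]
  unfold lb lf
  rw [smul_sub, smul_eq_C_mul, smul_eq_C_mul, ← mul_assoc, ← C_mul, div_mul_cancel₀ _ hb]
  ring

theorem hom_lb (t : Fin (r + 1) → Fin (4 + 1)) (b : Fin (r + 1)) (j : Fin r) :
    (lb x t b j).IsHomogeneous 1 := (isHomogeneous_X Ω _).sub (hom_CX _ _)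

theorem eval_lb {t : Fin (r + 1) → Fin (4 + 1)} {b : Fin (r + 1)} (hb : x (t b) ≠ 0)
    (j : Fin r) : eval x (lb x t b j) = 0 := by
  unfold lb
  rw [map_sub, map_mul, eval_X, eval_X, eval_C, div_mul_cancel₀ _ hb, sub_self]

/-- the determinant of linear combinations -/
theorem om_comb (w : Fin r → Fin (4 + 1) → Ω) (Q : Matrix (Fin r) (Fin r) Ω) :
    om D x j0 ε η (fun j => ∑ i, Q i j • w i) = Q.det * om D x j0 ε η w := by
  classical
  let L : (Fin r → Ω) →ₗ[Ω] (Fin (4 + 1) → Ω) := Fintype.linearCombination Ω w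
  let g : (Fin r → Ω) [⋀^Fin r]→ₗ[Ω] Ω := (om D x j0 ε η).compLinearMap L
  have h1 := AlternatingMap.eq_smul_basis_det (Pi.basisFun Ω (Fin r)) g
  have h2 : g Q.transpose = om D x j0 ε η (fun j => ∑ i, Q i j • w i) := by
    change om D x j0 ε η _ = _
    congr 1
  have h3 : g (Pi.basisFun Ω (Fin r)) = om D x j0 ε η w := by
    change om D x j0 ε η _ = _
    congr 1
    funext j
    change L (Pi.basisFun Ω (Fin r) j) = w j
    rw [Pi.basisFun_apply]
    change Fintype.linearCombination Ω w _ = _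
    rw [Fintype.linearCombination_apply_single, one_smul]
  rw [← h2, h1, AlternatingMap.smul_apply, Pi.basisFun_det, h3, smul_eq_mul, mul_comm]
  congr 1
  change Q.transpose.det = _
  rw [Matrix.det_transpose]

/-- coordinates of a column modulo `Hs` by Cramer's rule -/
theorem cramer_om (w : Fin r → Fin (4 + 1) → Ω) (u : Fin (4 + 1) → Ω) (q : Fin r → Ω)
    (h : u - ∑ i, q i • w i ∈ Hs x η) (i : Fin r) :
    om D x j0 ε η (Function.update w i u) = q i * om D x j0 ε η w := by
  classical
  have h1 : u = ∑ i, q i • w i + (u - ∑ i, q i • w i) := by abel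
  rw [h1, AlternatingMap.map_update_add, om_Hs D x j0 ε η w i h, add_zero,
    AlternatingMap.map_update_sum, Finset.sum_eq_single i]
  · rw [AlternatingMap.map_update_smul, Function.update_eq_self, smul_eq_mul]
  · intro j _ hj
    rw [AlternatingMap.map_update_smul, AlternatingMap.map_update_self _ _ hj.symm, smul_zero]
  · intro h; exact absurd (Finset.mem_univ _) h

end

/-- small bound of the coefficients of a form over `k` -/
theorem exists_CB {Ω : Type} [Field Ω] {k : Subfield Ω} {Γ : Type}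
    [LinearOrderedCommGroupWithZero Γ] (S : Sizes Ω k Γ) {σ : Type} (A : MvPolynomial σ Ω)
    (hA : ∀ I, coeff I A ∈ k) :
    ∃ g : S.V → Γ, S.Small g ∧ (∀ p, 1 ≤ g p) ∧ ∀ p, G.CB (S.v p) A (g p) := by
  classical
  refine ⟨fun p => ∏ I ∈ A.support, S.sz (coeff I A) p,
    Sizes.Small.prod _ fun I _ => S.small_sz (hA I),
    fun p => Finset.one_le_prod' fun I _ => S.one_le_sz _ p, fun p I => ?_⟩
  by_cases hI : I ∈ A.support
  · exact (S.le_sz _ p).trans (Finset.single_le_prod' (f := fun I => S.sz (coeff I A) p)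
      (fun i _ => S.one_le_sz _ p) hI)
  · rw [notMem_support_iff.1 hI, map_zero]
    exact zero_le

/-- a bounded column in the form needed by LOC -/
theorem exists_Bc {Ω : Type} [Field Ω] {k : Subfield Ω} {Γ : Type}
    [LinearOrderedCommGroupWithZero Γ] {S : Sizes Ω k Γ} {D : D6 Ω} {x : Fin (4 + 1) → Ω}
    {j0 : Fin (4 + 1)} (h : Sit S D x j0) {u : Fin (4 + 1) → Ω} (hu : Bc D x k u) :
    ∃ (E : Matrix (Fin (4 + 1)) (Fin (4 + 1)) Ω) (G' : MvPolynomial (Fin (4 + 1)) Ω)
      (g : S.V → Γ), S.Small g ∧ G'.IsHomogeneous 6 ∧ (∀ p a b, S.v p (E a b) ≤ g p) ∧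
      (∀ p I, S.v p (coeff I G') ≤ g p) ∧ u = E.mulVec x + D.V x 0 G' := by
  classical
  rcases hu with ⟨a, b, rfl⟩ | ⟨G', hG, hx, rfl⟩
  · refine ⟨Matrix.single a b 1, X b * pderiv a (D.F 0), S.MF D, h.small_MF, ?_, ?_, ?_, ?_⟩
    · exact hom_XF' D 0 a b
    · intro p a' b'
      rw [Matrix.single_apply]
      split_ifs
      · rw [map_one]; exact S.one_le_MF D p
      · rw [map_zero]; exact zero_le
    · intro p I
      exact G.CB_XF (S.CB_F D p 0) a b I
    · unfold WT
      rw [VT_one]
      congr 1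
      funext q
      rw [Matrix.single_mulVec]
      simp only [Pi.smul_apply, smul_eq_mul, Function.update_apply, one_mul, Pi.single_apply,
        Pi.zero_apply]
      split_ifs <;> simp
  · obtain ⟨g, hg, -, hg2⟩ := exists_CB S G' hG.2
    refine ⟨0, G', g, hg, hG.1, fun p a b => ?_, hg2, ?_⟩
    · rw [Matrix.zero_apply, map_zero]; exact zero_le
    · rw [Matrix.zero_mulVec, zero_add]

/-- products of matrices with small entries in bases depending on the place -/
theorem v_prod_le {Ω Γ : Type} [Field Ω] [LinearOrderedCommGroupWithZero Γ] (v : Valuation Ω Γ)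
    {r : ℕ} {T : Type} (a : T → Matrix (Fin r) (Fin r) Ω) (γ : T → Γ) (l : List T)
    (h : ∀ A ∈ l, ∀ i j, v (a A i j) ≤ γ A) :
    ∀ i j, v ((l.map a).prod i j) ≤ (l.map γ).prod := by
  classical
  induction l with
  | nil =>
    intro i j
    rw [List.map_nil, List.prod_nil, List.map_nil, List.prod_nil, Matrix.one_apply]
    split_ifs
    · rw [map_one]
    · rw [map_zero]; exact zero_le
  | cons A l ih =>
    intro i j
    rw [List.map_cons, List.prod_cons, List.map_cons, List.prod_cons, Matrix.mul_apply]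
    refine v.map_sum_le fun m _ => ?_
    rw [map_mul]
    exact mul_le_mul' (h A List.mem_cons_self i m)
      (ih (fun B hB => h B (List.mem_cons_of_mem _ hB)) m j)

theorem conj_prod {Ω : Type} [Field Ω] {r : ℕ} {T : Type} (Q : Matrix (Fin r) (Fin r) Ω)
    (hQ : IsUnit Q.det) (a : T → Matrix (Fin r) (Fin r) Ω) (l : List T) :
    (l.map fun A => Q⁻¹ * a A * Q).prod = Q⁻¹ * (l.map a).prod * Q := by
  induction l with
  | nil =>
    rw [List.map_nil, List.prod_nil, List.map_nil, List.prod_nil, Matrix.mul_one,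
      Matrix.nonsing_inv_mul Q hQ]
  | cons A l ih =>
    rw [List.map_cons, List.prod_cons, List.map_cons, List.prod_cons, ih]
    have h1 : Q⁻¹ * a A * Q * (Q⁻¹ * (l.map a).prod * Q) =
        Q⁻¹ * a A * (Q * Q⁻¹) * (l.map a).prod * Q := by
      simp only [Matrix.mul_assoc]
    rw [h1, Matrix.mul_nonsing_inv Q hQ, Matrix.mul_one]
    simp only [Matrix.mul_assoc]

theorem small_list {Ω : Type} [Field Ω] {k : Subfield Ω} {Γ : Type}
    [LinearOrderedCommGroupWithZero Γ] (S : Sizes Ω k Γ) {T : Type} (β : T → S.V → Γ)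
    (l : List T) (h : ∀ A ∈ l, S.Small (β A)) :
    S.Small fun p => (l.map fun A => β A p).prod := by
  induction l with
  | nil => simpa using S.small_one
  | cons A l ih =>
    have h1 := (h A List.mem_cons_self).mul (ih fun B hB => h B (List.mem_cons_of_mem _ hB))
    refine h1.mono fun p => ?_
    rw [List.map_cons, List.prod_cons]

/-- Module WORDB. -/
theorem wordb : WordbStatement := by
  classical
  intro hLoc hTau Ω _ _ k Γ _ S D x j0 h s r η hsr hη t P hH A0 hA0 hli a ha l hl
  have h0 := h.h0 0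
  have hj0 := h.hj0
  have hε : Nonempty ((Unit ⊕ (Fin s ⊕ Fin r)) ⊕ Fin 1 ≃ Fin (4 + 1)) := by
    refine ⟨Fintype.equivOfCardEq ?_⟩
    rw [Fintype.card_sum, Fintype.card_sum, Fintype.card_sum, Fintype.card_unit,
      Fintype.card_fin, Fintype.card_fin, Fintype.card_fin, Fintype.card_fin]
    omega
  obtain ⟨ε⟩ := hε
  set w0 : Fin r → Fin (4 + 1) → Ω := fun b => D.V x 0 (A0 * lf x j0 (t b.succ)) with hw0
  have hgη : ∀ a, ∑ p, eval x (pderiv p (D.F 0)) * η a p = 0 := fun a => gr_Bc D x h0 (hη a)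
  have hgw0 : ∀ b, ∑ p, eval x (pderiv p (D.F 0)) * w0 b p = 0 :=
    fun b => gr_Vlf D x j0 hj0 h0 hA0.1 (t b.succ)
  have hc0 : om D x j0 ε η w0 ≠ 0 := dt_ne_zero D x j0 ε η hj0 h0 hgη hgw0 hli
  have hc0k : om D x j0 ε η w0 ∈ k := by
    have h1 := wo_eq_tauB D x j0 ε η hj0 A0 (fun b => t (Fin.succ b))
    have h2 := hTau hLoc Ω k Γ S D x j0 h s r ε η hη A0 hA0 (Fin.cons j0 fun b => t (Fin.succ b))
    rw [← h1] at h2
    exact h2
  -- small bounds
  choose E Gη gη hgs hGh hEb hGb hηe using fun a => exists_Bc h (hη a)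
  obtain ⟨g0, hg0s, hg01, hg0⟩ := exists_CB S A0 hA0.2
  have hgA : ∀ A : MvPolynomial (Fin (4 + 1)) Ω, ∃ g : S.V → Γ, Fk k 5 A →
      (S.Small g ∧ (∀ p, 1 ≤ g p) ∧ ∀ p, G.CB (S.v p) A (g p)) := by
    intro A
    by_cases hA : Fk k 5 A
    · obtain ⟨g, h1, h2, h3⟩ := exists_CB S A hA.2
      exact ⟨g, fun _ => ⟨h1, h2, h3⟩⟩
    · exact ⟨fun _ => 1, fun h => absurd h hA⟩
  choose gA hgA using hgA
  let β : MvPolynomial (Fin (4 + 1)) Ω → S.V → Γ := fun A p =>
    (S.v p (om D x j0 ε η w0))⁻¹ *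
      (S.M p ^ 4 * ((∏ a, gη a p) * (gA A p * g0 p) ^ r))
  have hβs : ∀ A, Fk k 5 A → S.Small (β A) := by
    intro A hA
    exact (S.small_inv hc0k).mul ((S.small_M.pow 4).mul
      ((Sizes.Small.prod Finset.univ fun a _ => hgs a).mul (((hgA A hA).1.mul hg0s).pow r)))
  refine Sizes.Small.mem (S := S) ((small_list S β l fun A hA => hβs A (hl A hA)).mono
    fun p => ?_)
  -- the largest coordinate among the `t`
  obtain ⟨b, hb⟩ := Finite.exists_max fun i => S.v p (x (t i))
  have hb0 : x (t b) ≠ 0 := by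
    intro hz
    have h1 := hb 0
    rw [hH.t0, hj0, hz, map_one, map_zero] at h1
    exact absurd h1 (not_le.2 zero_lt_one)
  set Q := Qm (fun i => x (t i)) b with hQ
  have hy0 : x (t 0) = 1 := by rw [hH.t0, hj0]
  have hdet : S.v p Q.det = (S.v p (x (t b)))⁻¹ := by
    rcases det_Qm (fun i => x (t i)) hy0 b hb0 with h1 | h1
    · rw [hQ, h1, map_inv₀]
    · rw [hQ, h1, Valuation.map_neg, map_inv₀]
  have hvb : S.v p (x (t b)) ≠ 0 := (map_ne_zero (S.v p)).2 hb0
  have hQu : IsUnit Q.det := by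
    rw [isUnit_iff_ne_zero]
    intro hz
    rw [hz, map_zero] at hdet
    exact (inv_ne_zero hvb) hdet.symm
  -- the forms adapted to `b`
  have hVlb : ∀ (A : MvPolynomial (Fin (4 + 1)) Ω) (j : Fin r), D.V x 0 (A * lb x t b j) =
      ∑ i, Q i j • D.V x 0 (A * lf x j0 (t i.succ)) := by
    intro A j
    rw [lb_eq x j0 hj0 hH.t0 b hb0, Finset.mul_sum, map_sum]
    exact Finset.sum_congr rfl fun i _ => by rw [mul_smul_comm, map_smul]
  set w1 : Fin r → Fin (4 + 1) → Ω := fun j => D.V x 0 (A0 * lb x t b j) with hw1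
  have hw1e : w1 = fun j => ∑ i, Q i j • w0 i := by
    funext j
    exact hVlb A0 j
  have hom1 : om D x j0 ε η w1 = Q.det * om D x j0 ε η w0 := by
    rw [hw1e]
    exact om_comb D x j0 ε η w0 Q
  have hent : ∀ A, Fk k 5 A → ∀ i j, S.v p ((Q⁻¹ * a A * Q) i j) ≤ β A p := by
    intro A hA i j
    obtain ⟨-, hgA1, hgA2⟩ := hgA A hA
    -- the column
    have h1 : D.V x 0 (A * lb x t b j) - ∑ i, (Q⁻¹ * a A * Q) i j • w1 i ∈ Hs x η := by
      have h2 : ∑ i, (Q⁻¹ * a A * Q) i j • w1 i = ∑ m, (a A * Q) m j • w0 m := by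
        rw [hw1e]
        have h3 : Q * (Q⁻¹ * a A * Q) = a A * Q := by
          rw [← Matrix.mul_assoc, ← Matrix.mul_assoc, Matrix.mul_nonsing_inv Q hQu,
            Matrix.one_mul]
        rw [← h3]
        have h5 : ∀ m, (Q * (Q⁻¹ * a A * Q)) m j = ∑ i, Q m i * (Q⁻¹ * a A * Q) i j :=
          fun m => Matrix.mul_apply
        simp only [h5, Finset.smul_sum, Finset.sum_smul, smul_smul]
        rw [Finset.sum_comm]
        exact Finset.sum_congr rfl fun m _ => Finset.sum_congr rfl fun i _ => by rw [mul_comm]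
      have h4 : ∑ m, (a A * Q) m j • w0 m = ∑ i, Q i j • ∑ m, a A m i • w0 m := by
        have h5 : ∀ m, (a A * Q) m j = ∑ i, a A m i * Q i j := fun m => Matrix.mul_apply
        simp only [h5, Finset.smul_sum, Finset.sum_smul, smul_smul]
        rw [Finset.sum_comm]
        exact Finset.sum_congr rfl fun m _ => Finset.sum_congr rfl fun i _ => by rw [mul_comm]
      rw [h2, h4, hVlb A j, ← Finset.sum_sub_distrib]
      refine Submodule.sum_mem _ fun i _ => ?_
      rw [← smul_sub]
      exact Submodule.smul_mem _ _ (ha A hA.1 i)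
    have h2 := cramer_om D x j0 ε η w1 _ _ h1 i
    -- LOC
    have h3 := hLoc Ω Γ D x j0 hj0 h0 (S.v p) (S.M p) (S.one_le p)
      (fun I hI f hf => h.hdel p 0 I hI f hf) s r ε (Sum.elim E fun _ => 0)
      (Sum.elim Gη (Function.update (fun j => A0 * lb x t b j) i (A * lb x t b j)))
      (Sum.elim (fun a => gη a p) fun _ => gA A p * g0 p) η
      (Function.update w1 i (D.V x 0 (A * lb x t b j))) ?_ ?_ ?_ ?_ ?_ (t b)
    · rw [Fintype.prod_sum_type] at h3
      simp only [Sum.elim_inl, Sum.elim_inr, Finset.prod_const, Finset.card_univ,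
        Fintype.card_fin] at h3
      rw [← om_apply, h2, hom1, map_mul, map_mul, hdet] at h3
      have hc : S.v p (om D x j0 ε η w0) ≠ 0 := (map_ne_zero (S.v p)).2 hc0
      have h4 : S.v p ((Q⁻¹ * a A * Q) i j) * ((S.v p (x (t b)))⁻¹ * S.v p (om D x j0 ε η w0)) *
          S.v p (x (t b)) = S.v p (om D x j0 ε η w0) * S.v p ((Q⁻¹ * a A * Q) i j) := by
        calc _ = (S.v p (x (t b)) * (S.v p (x (t b)))⁻¹) * (S.v p (om D x j0 ε η w0) *
            S.v p ((Q⁻¹ * a A * Q) i j)) := by
              simp only [mul_comm, mul_assoc, mul_left_comm]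
          _ = _ := by rw [mul_inv_cancel₀ hvb, one_mul]
      rw [h4] at h3
      calc S.v p ((Q⁻¹ * a A * Q) i j) = (S.v p (om D x j0 ε η w0))⁻¹ *
          (S.v p (om D x j0 ε η w0) * S.v p ((Q⁻¹ * a A * Q) i j)) := by
            rw [← mul_assoc, inv_mul_cancel₀ hc, one_mul]
        _ ≤ _ := mul_le_mul' le_rfl h3
    · rintro (a' | b')
      · exact hGh a'
      · simp only [Sum.elim_inr, Function.update_apply]
        split_ifs
        · exact hA.1.mul (hom_lb x t b j)
        · exact hA0.1.mul (hom_lb x t b b')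
    · rintro (a' | b') p' q'
      · exact hEb a' p p' q'
      · simp only [Sum.elim_inr, Matrix.zero_apply, map_zero]
        exact zero_le
    · have hlbCB : ∀ j, G.CB (S.v p) (lb x t b j) 1 := by
        intro j
        unfold lb
        refine (G.CB_X (S.v p) _).sub _ ((G.CB_CX (S.v p) _ _).mono _ ?_)
        rw [map_div₀]
        exact div_le_one_of_le₀ (hb _) zero_le
      rintro (a' | b') I
      · exact hGb a' p I
      · simp only [Sum.elim_inr, Function.update_apply]
        split_ifs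
        · have h5 := (hgA2 p).mul _ (hlbCB j) I
          rw [mul_one] at h5
          calc _ ≤ gA A p := h5
            _ = gA A p * 1 := (mul_one _).symm
            _ ≤ _ := mul_le_mul' le_rfl (hg01 p)
        · have h5 := (hg0 p).mul _ (hlbCB b') I
          rw [mul_one] at h5
          calc _ ≤ g0 p := h5
            _ = 1 * g0 p := (one_mul _).symm
            _ ≤ _ := mul_le_mul' (hgA1 p) le_rfl
    · rintro (a' | b')
      · exact hηe a'
      · simp only [Sum.elim_inr, Matrix.zero_mulVec, zero_add]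
        by_cases hbi : b' = i
        · subst hbi
          rw [Function.update_self, Function.update_self]
        · rw [Function.update_of_ne hbi, Function.update_of_ne hbi]
    · rintro (a' | b')
      · exact hgη a'
      · simp only [Sum.elim_inr]
        by_cases hbi : b' = i
        · subst hbi
          rw [Function.update_self]
          exact gr_V D x h0 (hA.1.mul (hom_lb x t b j)) (by
            rw [map_mul, eval_lb x hb0, mul_zero])
        · rw [Function.update_of_ne hbi]
          exact gr_V D x h0 (hA0.1.mul (hom_lb x t b b')) (by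
            rw [map_mul, eval_lb x hb0, mul_zero])
  -- the trace
  have htr : Matrix.trace ((l.map a).prod) =
      Matrix.trace ((l.map fun A => Q⁻¹ * a A * Q).prod) := by
    rw [conj_prod Q hQu a l, Matrix.trace_mul_comm, ← Matrix.mul_assoc,
      Matrix.mul_nonsing_inv Q hQu, Matrix.one_mul]
  rw [htr]
  unfold Matrix.trace
  refine (S.v p).map_sum_le fun i _ => ?_
  rw [Matrix.diag_apply]
  exact v_prod_le (S.v p) (fun A => Q⁻¹ * a A * Q) (fun A => β A p) l
    (fun A hA => hent A (hl A hA)) i i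

end Pool.Agent.T2.H19
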